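import Pool.Agent.Helper35.BK.Masa

/-!
# A contractive projection onto a bimodule which is not closed under the triple product

Let `G` be the group of the finitely supported sequences of elements of `ℤ/2`, `H = ℓ²(G)`,
`M = B(H)` and let `A` be the commutant of the translation operators `V k`, `k ∈ G`. It is a masa of
`M`, and it is regular, because the translations and the multiplications by the characters of `G`
normalise it. Let `U` be an ultrafilter on `G` with `U + U = U` which contains the complement of `0`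
and all the subgroups `{k : k j = 0 for all j ≤ N}`, and let `ψ x` be the limit in the weak operator
topology of the `(V k)* x (V k)` along `U`. Then `ψ` is a contractive projection, unital, and a
bimodule map over `A`. Let `σ` be the involution of `G` which fixes `0` and adds to `g ≠ 0` the unit
vector with the number `m + 1`, if `m` is the first element of the support of `g`. If `T = ψ (σ)`
(`σ` considered as an operator on `ℓ²(G)`) then `T e_0 = 0` but `T e_g = e_(σ g)` for all `g ≠ 0`, and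
`ψ (T T)` maps `e_0` to `e_0`, so `T T = T 1* T` is not in the range of `ψ`.
-/

set_option autoImplicit false

open Pool.Agent.Helper35.BK

namespace Pool.Agent.Results.MP_f23f32_an.TripleProductFails

section
variable {H : Type} [NormedAddCommGroup H] [InnerProductSpace ℂ H] [CompleteSpace H]

/-- `X` is the set of the elements of a (unital) self-adjoint subalgebra of `B(H)`. -/
def IsStarAlgebra (X : Set (H →L[ℂ] H)) : Prop :=
  ∃ B : StarSubalgebra ℂ (H →L[ℂ] H), (B : Set (H →L[ℂ] H)) = X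

/-- The elements of `X` commute with each other. -/
def IsAbelian (X : Set (H →L[ℂ] H)) : Prop :=
  ∀ x ∈ X, ∀ y ∈ X, x * y = y * x

/-- `M ∩ A' ⊆ A`. -/
def ContainsRelativeCommutant (M A : Set (H →L[ℂ] H)) : Prop :=
  ∀ x ∈ M, (∀ a ∈ A, x * a = a * x) → x ∈ A

/-- `A` is a masa of `M`: a maximal abelian self-adjoint subalgebra of `M`. -/
def IsMasa (M A : Set (H →L[ℂ] H)) : Prop :=
  IsStarAlgebra A ∧ IsAbelian A ∧ A ⊆ M ∧
    ∀ B, IsStarAlgebra B → IsAbelian B → B ⊆ M → A ⊆ B → B = A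

/-- `x ↦ u x u*`. -/
noncomputable def conj (u x : H →L[ℂ] H) : H →L[ℂ] H := u * x * star u

/-- `u` is unitary and `u A u* = A`. -/
def Normalizes (u : H →L[ℂ] H) (A : Set (H →L[ℂ] H)) : Prop :=
  u ∈ unitary (H →L[ℂ] H) ∧ conj u '' A = A

/-- The unitaries `u ∈ M` with `u A u* = A` generate `M` as a von Neumann algebra. -/
def IsRegular (M A : Set (H →L[ℂ] H)) : Prop :=
  ∀ N : VonNeumannAlgebra H, (∀ u ∈ M, Normalizes u A → u ∈ N) → M ⊆ N

/-- `ψ` is linear on `M`. -/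
def LinearOn (M : Set (H →L[ℂ] H)) (ψ : (H →L[ℂ] H) → (H →L[ℂ] H)) : Prop :=
  ∀ c : ℂ, ∀ x ∈ M, ∀ y ∈ M, ψ (c • x + y) = c • ψ x + ψ y

/-- `ψ` restricts to a contractive projection `M → M`: a linear map with `ψ ∘ ψ = ψ` and
`‖ψ x‖ ≤ ‖x‖` for all `x ∈ M`. -/
def IsContractiveProjection (M : Set (H →L[ℂ] H)) (ψ : (H →L[ℂ] H) → (H →L[ℂ] H)) : Prop :=
  LinearOn M ψ ∧ (∀ x ∈ M, ψ x ∈ M) ∧ ∀ x ∈ M, ψ (ψ x) = ψ x ∧ ‖ψ x‖ ≤ ‖x‖

/-- The set `X` of operators is an `A`-bimodule: `A X ⊆ X` and `X A ⊆ X`. -/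
def IsBimodule (A X : Set (H →L[ℂ] H)) : Prop :=
  ∀ a ∈ A, ∀ x ∈ X, a * x ∈ X ∧ x * a ∈ X

/-- `a b* c`. -/
noncomputable def abc (a b c : H →L[ℂ] H) : H →L[ℂ] H := a * star b * c

/-- The triple product. -/
noncomputable def triple (a b c : H →L[ℂ] H) : H →L[ℂ] H :=
  (1 / 2 : ℂ) • (abc a b c + abc c b a)

/-- For some `a, b, c ∈ X` neither the triple product nor `a b* c` is in `X`. -/
def BothFail (X : Set (H →L[ℂ] H)) : Prop :=
  ∃ a ∈ X, ∃ b ∈ X, ∃ c ∈ X, triple a b c ∉ X ∧ abc a b c ∉ X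

/-- `M = B(H)`, `A` is a regular masa of `M`, `ψ` is a contractive projection on `M`, its range is
an `A`-bimodule, and both questions have a negative answer for it. -/
def IsCounterexample (M A : Set (H →L[ℂ] H)) (ψ : (H →L[ℂ] H) → (H →L[ℂ] H)) : Prop :=
  M = Set.univ ∧ IsMasa M A ∧ IsRegular M A ∧ ContainsRelativeCommutant M A ∧
    IsContractiveProjection M ψ ∧ IsBimodule A (ψ '' M) ∧ BothFail (ψ '' M)

theorem triple_self (a b : H →L[ℂ] H) : triple a b a = a * star b * a := by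
  unfold triple abc
  rw [← two_smul ℂ (a * star b * a), smul_smul, show (1 / 2 : ℂ) * 2 = 1 by norm_num, one_smul]

theorem mem_ran (φ : (H →L[ℂ] H) →ₗ[ℂ] (H →L[ℂ] H)) (hi : ∀ x, φ (φ x) = φ x) (y : H →L[ℂ] H) :
    y ∈ φ '' (fullVN H : Set (H →L[ℂ] H)) ↔ φ y = y := by
  constructor
  · rintro ⟨x, _, rfl⟩
    exact hi _
  · intro h
    exact ⟨y, mem_fullVN y, h⟩

theorem proj (φ : (H →L[ℂ] H) →ₗ[ℂ] (H →L[ℂ] H)) (hn : ∀ x, ‖φ x‖ ≤ ‖x‖)
    (hi : ∀ x, φ (φ x) = φ x) :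
    IsContractiveProjection (fullVN H : Set (H →L[ℂ] H)) φ :=
  ⟨fun c x _ y _ => by rw [map_add, map_smul], fun _ _ => mem_fullVN _,
    fun x _ => ⟨hi x, hn x⟩⟩

theorem bimod (A : VonNeumannAlgebra H)
    (φ : (H →L[ℂ] H) →ₗ[ℂ] (H →L[ℂ] H)) (hi : ∀ x, φ (φ x) = φ x)
    (hl : ∀ a ∈ A, ∀ x, φ (a * x) = a * φ x) (hr : ∀ a ∈ A, ∀ x, φ (x * a) = φ x * a) :
    IsBimodule (A : Set (H →L[ℂ] H)) (φ '' (fullVN H : Set (H →L[ℂ] H))) := by
  intro a ha y hy
  rw [mem_ran φ hi] at hy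
  rw [mem_ran φ hi, mem_ran φ hi]
  constructor
  · rw [hl _ ha, hy]
  · rw [hr _ ha, hy]

theorem fails (φ : (H →L[ℂ] H) →ₗ[ℂ] (H →L[ℂ] H)) (hi : ∀ x, φ (φ x) = φ x) (h1 : φ 1 = 1)
    (T : H →L[ℂ] H) (hT : φ T = T) (hTT : φ (T * T) ≠ T * T) :
    BothFail (φ '' (fullVN H : Set (H →L[ℂ] H))) := by
  have htt : T * star (1 : H →L[ℂ] H) * T ∉ φ '' (fullVN H : Set (H →L[ℂ] H)) := by
    rw [star_one, mul_one, mem_ran φ hi]
    exact hTT
  refine ⟨T, (mem_ran φ hi T).2 hT, 1, (mem_ran φ hi 1).2 h1,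
    T, (mem_ran φ hi T).2 hT, ?_, htt⟩
  rw [triple_self]
  exact htt

end

theorem masa : IsMasa (fullVN (L2 G) : Set (L2 G →L[ℂ] L2 G)) (A : Set (L2 G →L[ℂ] L2 G)) := by
  refine ⟨⟨A.toStarSubalgebra, rfl⟩, fun x hx y hy => A_comm hx hy, fun x _ => mem_fullVN x, ?_⟩
  intro B _ hB _ hAB
  exact Set.Subset.antisymm (fun x hx => mem_A.2 fun k => hB _ (hAB (V_mem_A k)) _ hx) hAB

theorem regular :
    IsRegular (fullVN (L2 G) : Set (L2 G →L[ℂ] L2 G)) (A : Set (L2 G →L[ℂ] L2 G)) := by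
  intro N hN x _
  have hVN : ∀ k, V k ∈ N := fun k => hN _ (mem_fullVN _) ⟨V_unitary k, V_norm_A k⟩
  have hDN : ∀ i, D i ∈ N := fun i => hN _ (mem_fullVN _) ⟨D_unitary i, D_norm_A i⟩
  have hx : x ∈ N.commutant.commutant := by
    rw [VonNeumannAlgebra.mem_commutant_iff]
    intro g hg
    rw [VonNeumannAlgebra.mem_commutant_iff] at hg
    obtain ⟨c, rfl⟩ := scalar (fun k => hg _ (hVN k)) (fun i => hg _ (hDN i))
    rw [smul_mul_assoc, one_mul, mul_smul_comm, mul_one]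
  rw [VonNeumannAlgebra.commutant_commutant] at hx
  exact hx

theorem relative :
    ContainsRelativeCommutant (fullVN (L2 G) : Set (L2 G →L[ℂ] L2 G))
      (A : Set (L2 G →L[ℂ] L2 G)) :=
  fun _ _ hx => mem_A.2 fun k => (hx (V k) (V_mem_A k)).symm

theorem result :
    ∃ (H : Type) (_ : NormedAddCommGroup H) (_ : InnerProductSpace ℂ H) (_ : CompleteSpace H)
      (M A : VonNeumannAlgebra H) (ψ : (H →L[ℂ] H) → (H →L[ℂ] H)),
      TopologicalSpace.SeparableSpace H ∧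
        IsCounterexample (M : Set (H →L[ℂ] H)) (A : Set (H →L[ℂ] H)) ψ :=
  core.elim fun φ h => h.2.2.2.2.2.elim fun T hT =>
    ⟨L2 G, inferInstance, inferInstance, inferInstance, fullVN (L2 G), A, φ, separable,
      Set.eq_univ_of_forall mem_fullVN, masa, regular, relative,
      proj φ h.1 h.2.1, bimod _ φ h.2.1 h.2.2.1 h.2.2.2.1,
      fails φ h.2.1 h.2.2.2.2.1 T hT.1 hT.2⟩

end Pool.Agent.Results.MP_f23f32_an.TripleProductFails
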